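import Pool.Agent.Q20.SI.Stm3

/-!
# JOB AUX (project SI of helper20)

Primes of large residue characteristic outside a finite set.
-/

set_option autoImplicit false

namespace Pool.Agent.Q182.SI

open NumberField IsDedekindDomain Pool.Agent.Q20.RS Pool.Agent.Q20.SI

/-- a maximal ideal which contains a prime number -/
theorem exists_max (F : Type) [Field F] [NumberField F] (p : ℕ) (hp : p.Prime) :
    ∃ M : Ideal (𝓞 F), M.IsMaximal ∧ ((p : ℕ) : 𝓞 F) ∈ M := by
  have hI : Ideal.span {((p : ℕ) : 𝓞 F)} ≠ ⊤ := by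
    intro h
    have h1 := Ideal.absNorm_eq_one_iff.2 h
    rw [Ideal.absNorm_span_singleton] at h1
    have h2 : ((p : ℕ) : 𝓞 F) = algebraMap ℤ (𝓞 F) (p : ℤ) := by simp
    rw [h2, Algebra.norm_algebraMap, Int.natAbs_pow, Int.natAbs_natCast] at h1
    have h3 : Module.finrank ℤ (𝓞 F) ≠ 0 := by
      rw [NumberField.RingOfIntegers.rank]
      exact (Module.finrank_pos).ne'
    rcases pow_eq_one_iff.1 h1 with h4 | h4
    · exact hp.one_lt.ne' h4
    · exact h3 h4
  obtain ⟨M, hM, hle⟩ := Ideal.exists_le_maximal _ hI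
  exact ⟨M, hM, hle (Ideal.mem_span_singleton_self _)⟩

/-- the norm of a nonzero maximal ideal which contains the prime `p` is at least `p` -/
theorem le_absNorm (F : Type) [Field F] [NumberField F] (p : ℕ) (hp : p.Prime)
    (M : Ideal (𝓞 F)) (hM : M ≠ ⊤) (hbot : M ≠ ⊥) (hpM : ((p : ℕ) : 𝓞 F) ∈ M) :
    p ≤ Ideal.absNorm M := by
  have hpos : 0 < Ideal.absNorm M :=
    Nat.pos_of_ne_zero (Ideal.absNorm_eq_zero_iff.not.2 hbot)
  by_contra hlt
  have hcop : Nat.Coprime p (Ideal.absNorm M) :=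
    (Nat.Prime.coprime_iff_not_dvd hp).2 fun hd => hlt (Nat.le_of_dvd hpos hd)
  obtain ⟨a, b, hab⟩ := Nat.isCoprime_iff_coprime.2 hcop
  apply hM
  rw [Ideal.eq_top_iff_one]
  have h1 : (1 : 𝓞 F) = (a : 𝓞 F) * ((p : ℕ) : 𝓞 F) +
      (b : 𝓞 F) * ((Ideal.absNorm M : ℕ) : 𝓞 F) := by
    have := congrArg (Int.cast : ℤ → 𝓞 F) hab
    push_cast at this
    exact this.symm
  rw [h1]
  exact M.add_mem (M.mul_mem_left _ hpM) (M.mul_mem_left _ (Ideal.absNorm_mem M))

theorem auxp : S_AUX := by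
  intro F _ _ S n
  obtain ⟨p, hp1, hp⟩ := Nat.exists_infinite_primes
    (n + ∑ q ∈ S, Ideal.absNorm q.asIdeal + 1)
  obtain ⟨M, hM, hpM⟩ := exists_max F p hp
  have hbot : M ≠ ⊥ := by
    rintro rfl
    rw [Ideal.mem_bot, Nat.cast_eq_zero] at hpM
    exact hp.ne_zero hpM
  have h1 := le_absNorm F p hp M hM.ne_top hbot hpM
  have hn : n < p := by omega
  refine ⟨⟨M, hM.isPrime, hbot⟩, p, ?_, hp, hn, hpM⟩
  intro hS
  have hle2 := Finset.single_le_sum
    (f := fun q : HeightOneSpectrum (𝓞 F) => Ideal.absNorm q.asIdeal)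
      (fun _ _ => Nat.zero_le _) hS
  have hle3 : Ideal.absNorm M ≤ ∑ q ∈ S, Ideal.absNorm q.asIdeal := hle2
  omega

end Pool.Agent.Q182.SI
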